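import Mathlib
import Pool.Agent.L7h48.SGP.Stm

/-!
# Project SGQ: the extension of SGP to all imaginary quadratic fields in which `3` splits

SGP treats the squarefree `D ≡ 11` modulo `12`. Here `r = 5` or `r = 2` and `D ≡ r` modulo `12`, so `2` is
ramified in `K = ℚ(√-D)` and the ring of integers is `ℤ[√-D]`. If `K` is not `Good` there is a solution
(`Tri2 r D j m x y`) of `x² + D y² = 3^j m³`, `j ≤ 1`, with `m ≤ (4/π) √D`. THEOREM: at least one quarter of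
the squarefree `D ≡ r` modulo `12` are `Good`, so with SGP at least one quarter of ALL imaginary quadratic
fields in which `3` splits. All the parts are close copies of the parts of SGP (named in the docstrings).
-/

set_option autoImplicit false

namespace Pool.Agent.L7h48.SGQ

open Pool.Agent.Y715.Gi (QB KK GK)
open Pool.Agent.Y715.Nr Pool.Agent.W237.RK
open Pool.Agent.Y715.Df (Cmp)
open Pool.Agent.Z384 (II DD DDs)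
open Pool.Agent.L7h48.SG
open Pool.Agent.L7h48.SGP
open Pool.Agent.L7h15.SG (em pid)
open NumberField

/-! ## Part 2: ideals -/

/-- the solutions of `x² + D y² = 3^j m³`, `D ≡ r` modulo `12` -/
structure Tri2 (r D j m x y : ℕ) : Prop where
  eq : x ^ 2 + D * y ^ 2 = 3 ^ j * m ^ 3
  m0 : 0 < m
  y0 : 0 < y
  two : (r = 5 ∧ m % 2 = 1 ∧ (x + y) % 2 = 1) ∨ (r = 5 ∧ m % 4 = 2 ∧ x % 4 = 2 ∧ y % 4 = 2) ∨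
    (r = 2 ∧ m % 2 = 1 ∧ x % 2 = 1) ∨ (r = 2 ∧ m % 4 = 2 ∧ x % 4 = 0 ∧ y % 4 = 2)
  three : (j = 0 ∧ m % 3 = 1 ∧ y % 9 = 0) ∨ (j = 0 ∧ m % 3 = 2 ∧ x % 9 = 0 ∧ y % 3 ≠ 0) ∨
    (j = 0 ∧ m % 3 = 0 ∧ (x % 9 = 4 ∨ x % 9 = 5) ∧ y % 3 ≠ 0) ∨
    (j = 1 ∧ m % 3 = 1 ∧ (x % 9 = 2 ∨ x % 9 = 7) ∧ y % 3 ≠ 0) ∨
    (j = 1 ∧ m % 3 = 2 ∧ (x % 9 = 1 ∨ x % 9 = 8) ∧ y % 3 ≠ 0) ∨
    (j = 1 ∧ m % 3 = 0 ∧ (x % 9 = 4 ∨ x % 9 = 5) ∧ y % 3 ≠ 0) ∨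
    (j = 1 ∧ m % 3 = 0 ∧ (x % 27 = 12 ∨ x % 27 = 15) ∧ y % 3 = 0 ∧ y % 9 ≠ 0)
  big : ∀ q : ℕ, q.Prime → 5 ≤ q → q ∣ y → q ∣ m → ¬ q ^ 2 ∣ y ∧ q ^ 2 ∣ x

/-- **[MK]** Minkowski's bound (`SGP.S_MK`, `L7h37/SGP/MK.lean`: the discriminant of `1, s` is `-4 D`; the
bound `(2/π) √(4 D)` holds for all `D`, the ring of integers is not needed). -/
def S_MK : Prop :=
  ∀ D : ℕ, 0 < D → ∀ s : QB, s ^ 2 = -(D : QB) → ∀ C : ClassGroup (𝓞 (KK s)),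
    ∃ I : nonZeroDivisors (Ideal (𝓞 (KK s))), ClassGroup.mk0 I = C ∧
      (Ideal.absNorm (I : Ideal (𝓞 (KK s))) : ℝ) ≤ 4 / Real.pi * √(D : ℝ)

/-- **[ID]** (assume MK) the same as `SGP.S_ID` (with the other constant). -/
def S_ID : Prop :=
  ∀ D : ℕ, Squarefree D → D % 3 = 2 → ∀ s : QB, s ^ 2 = -(D : QB) →
    ∀ ι₀ ι₁ : QB →ₐ[ℚ] PadicAlgCl 3, ι₁ s = -ι₀ s → ¬ Good s ι₀ →
    ∃ (I : Ideal (𝓞 (KK s))) (b : 𝓞 (KK s)) (j : ℕ), Dta D s ι₀ ι₁ I b j ∧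
      (Ideal.absNorm I : ℝ) ≤ 4 / Real.pi * √(D : ℝ)

/-- **[R0]** the equation (`SGP.S_R0`): `b = x + y s`, `x² + D y² = N(b) = 3^j m³`, `y ≠ 0`. -/
def S_R0 : Prop :=
  ∀ D : ℕ, Squarefree D → (D % 12 = 5 ∨ D % 12 = 2) → ∀ s : QB, s ^ 2 = -(D : QB) →
    ∀ (ι₀ ι₁ : QB →ₐ[ℚ] PadicAlgCl 3), ι₁ s = -ι₀ s →
    ∀ (I : Ideal (𝓞 (KK s))) (b : 𝓞 (KK s)) (j : ℕ), Dta D s ι₀ ι₁ I b j →
      ∃ x y : ℤ, em s b = (x : QB) + (y : QB) * s ∧ y ≠ 0 ∧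
        x ^ 2 + D * y ^ 2 = 3 ^ j * (Ideal.absNorm I : ℤ) ^ 3

/-- **[R2]** the conditions at `2` and `3`. `(2) = P²`, `P` the only prime above `2`, of norm `2`, `v̄ ≠ P`; `(2)` does
not divide `I`, so the exponent of `P` in `I` is `e ≤ 1`, and `absNorm I = 2^e ·` odd; if `e = 1` then
`P³ ∣ (b)`, so `2 ∣ b`. (`P² = (2)`: for `D ≡ 2` modulo `4`, `P = (2, s)`; for `D ≡ 1`, `P = (2, 1 + s)`. Or, with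
numbers: `N(I)` even gives a prime `P ∣ I` above `2`; its conjugate divides `2` too, `P P̄ = (2)` if
`N(P) = 2` and `P = P̄` since `2 s`, resp. ... as you like.) The last statement is the one of `SGP.S_R2`
for `3`. -/
def S_R2 : Prop :=
  ∀ D : ℕ, Squarefree D → (D % 12 = 5 ∨ D % 12 = 2) → ∀ s : QB, s ^ 2 = -(D : QB) →
    ∀ (ι₀ ι₁ : QB →ₐ[ℚ] PadicAlgCl 3), ι₁ s = -ι₀ s →
    ∀ (I : Ideal (𝓞 (KK s))) (b : 𝓞 (KK s)) (j : ℕ), Dta D s ι₀ ι₁ I b j →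
      Ideal.absNorm I % 4 ≠ 0 ∧ (Ideal.absNorm I % 2 = 0 → ∃ b' : 𝓞 (KK s), b = 2 * b') ∧
      ¬ (‖ι₀ (em s b)‖ ≤ 1 / 27 ∧ ‖ι₁ (em s b)‖ ≤ 1 / 27 * (1 / 3) ^ j)

/-- **[RQ]** the condition at the primes `q ≥ 5` (`SGP.S_RQ`, `L7h69/SGP/RQ.lean`). -/
def S_RQ : Prop :=
  ∀ D : ℕ, Squarefree D → (D % 12 = 5 ∨ D % 12 = 2) → ∀ s : QB, s ^ 2 = -(D : QB) →
    ∀ (ι₀ ι₁ : QB →ₐ[ℚ] PadicAlgCl 3), ι₁ s = -ι₀ s →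
    ∀ (I : Ideal (𝓞 (KK s))) (b : 𝓞 (KK s)) (j : ℕ), Dta D s ι₀ ι₁ I b j →
      ∀ x y : ℤ, em s b = (x : QB) + (y : QB) * s → y ≠ 0 →
        x ^ 2 + D * y ^ 2 = 3 ^ j * (Ideal.absNorm I : ℤ) ^ 3 →
        ∀ q : ℕ, q.Prime → 5 ≤ q → (q : ℤ) ∣ y → q ∣ Ideal.absNorm I →
          ¬ (q : ℤ) ^ 2 ∣ y ∧ (q : ℤ) ^ 2 ∣ x

/-- **[TRI]** (assume ID, R0, R2, `SGP.S_R3` for `2 x`, `2 y`, RQ) a field which is not `Good` gives a solution. -/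
def S_TRI : Prop :=
  ∀ r : ℕ, (r = 5 ∨ r = 2) → ∀ D : ℕ, Squarefree D → D % 12 = r → ∀ s : QB, s ^ 2 = -(D : QB) →
    ∀ ι₀ : QB →ₐ[ℚ] PadicAlgCl 3, ¬ Good s ι₀ →
      ∃ j ≤ 1, ∃ m x y : ℕ, Tri2 r D j m x y ∧ (m : ℝ) ≤ 4 / Real.pi * √(D : ℝ)

/-! ## Part 3: counting

`c = π / 4`, `A = 3^j m³`. For `D ≤ X`, `m ≤ √D / c`: `√(A - X y²) ≤ x ≤ √(A - c² m² y²)`, an interval of length
`y² Hh A (c m) √X y`, `m ≤ M = √X / c` and `y ≤ 3 X^(1/4)`. -/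

/-- the factor at `2` -/
noncomputable def k22 (r j m y : ℕ) : ℝ :=
  if m % 4 = 2 then (if y % 4 = 2 then 1 else 0)
  else if m % 2 = 1 then
    (if y % 2 = 1 then (if (3 ^ j * m ^ 3) % 4 = (if r = 5 then 1 else 3) then 1 / 2 else 0)
      else if y % 4 = 2 then (if (3 ^ j * m ^ 3) % 8 = (if r = 5 then 5 else 1) then 1 else 0)
      else (if (3 ^ j * m ^ 3) % 8 = 1 then 1 else 0))
  else 0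

/-- the mean value of `k22 r j m y * k3 j m y` over `m` -/
noncomputable def Rm2 (j y : ℕ) : ℝ :=
  (if y % 4 = 2 then 3 / 8 else 1 / 8) *
    (if j = 0 then (if y % 3 ≠ 0 then 1 / 9 else if y % 9 = 0 then 2 / 9 else 0)
      else (if y % 9 ≠ 0 then 2 / 9 else 0))

/-- **[CQ]** the primes `q ≥ 5` (`SGP.S_CQ`): `x² ≡ 3^j m³` modulo `q^(2e)`. -/
def S_CQ : Prop :=
  ∀ (r j m y : ℕ), (r = 5 ∨ r = 2) → j ≤ 1 → 0 < m → 0 < y → ∀ q : ℕ, q.Prime → 5 ≤ q → q ∣ y →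
    Cov (fun x => ∃ D, D % 12 = r ∧ Tri2 r D j m x y) (q ^ (2 * y.factorization q))
      (1 + (jacobiSym ((3 ^ j * m : ℕ) : ℤ) q : ℝ))

/-- **[C2]** the prime `2`: the density is `k22 / 4^α`, `2^α ∥ y`, `n = 3^j m³`. `m ≡ 2` modulo `4`: then
`y ≡ 2` modulo `4` and `x` is in one class modulo `4`. `m` odd, `y` odd: `x` is even (`r = 5`) or odd
(`r = 2`), and `D ≡ D y² = n - x²` modulo `4` gives `n ≡ 1`, resp. `n ≡ 3` modulo `4`. `m` odd, `y` even: `x` is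
odd; `D y² ≡ 4^α` (`r = 5`) resp. `2 · 4^α` (`r = 2`) modulo `4^(α+1)`, so `x²` is known modulo `Q = 4^(α+1)`:
at most `4` classes (two solutions satisfy `x ≡ ± z` modulo `Q / 2`), and it must be `1` modulo `8`:
`r = 5`: `n ≡ 5` (`α = 1`), `n ≡ 1` (`α ≥ 2`); `r = 2`: `n ≡ 1` modulo `8`. -/
def S_C2 : Prop :=
  ∀ (r j m y : ℕ), (r = 5 ∨ r = 2) → j ≤ 1 → 0 < m → 0 < y → ∃ (k : ℕ) (r' : ℝ), 0 ≤ r' ∧ r' ≤ 4 ∧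
    r' / (2 ^ k : ℕ) = k22 r j m y / (4 : ℝ) ^ (y.factorization 2) ∧
    Cov (fun x => ∃ D, D % 12 = r ∧ Tri2 r D j m x y) (2 ^ k) r'

/-- **[C3]** the prime `3` (`SGP.S_C3`, the same `k3`): all cases with `9 ∤ y` are in `Tri2.three`; `j = 0`,
`9 ∣ y`: `x² ≡ m³ - 2 · 9^β` modulo `3^(2β+1)`. -/
def S_C3 : Prop :=
  ∀ (r j m y : ℕ), (r = 5 ∨ r = 2) → j ≤ 1 → 0 < m → 0 < y → ∃ (k : ℕ) (r' : ℝ), 0 ≤ r' ∧ r' ≤ 2 ∧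
    r' / (3 ^ k : ℕ) = k3 j m y / (9 : ℝ) ^ (y.factorization 3) ∧
    Cov (fun x => ∃ D, D % 12 = r ∧ Tri2 r D j m x y) (3 ^ k) r'

/-- **[XC]** (assume `SGP.S_CV`, CQ, C2, C3; `L7h23/SGP/XC.lean`) -/
def S_XC : Prop :=
  ∀ (r j m y : ℕ), (r = 5 ∨ r = 2) → j ≤ 1 → 0 < m → 0 < y → ∀ α β : ℝ, α ≤ β →
    ∀ T : Finset ℕ, (∀ x ∈ T, α ≤ x ∧ (x : ℝ) ≤ β ∧ ∃ D, D % 12 = r ∧ Tri2 r D j m x y) →
      (T.card : ℝ) ≤ k22 r j m y * k3 j m y * Wt j m y / y ^ 2 * (β - α) + 8 * Wt j m y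

/-- **[WM]** the mean of the weight (`L7h51/SGP/WM.lean`; `k22 * k3` is periodic in `m` modulo `24`) -/
def S_WM : Prop :=
  ∃ C : ℝ, 0 < C ∧ ∀ (r j y N : ℕ), (r = 5 ∨ r = 2) → j ≤ 1 → 0 < y →
    |∑ m ∈ Finset.Icc 1 N, (k22 r j m y * k3 j m y * Wt j m y - Rm2 j y)| ≤ C * y * √(y : ℝ)

/-- **[CA]** (assume XC; `L7h75/SGP/CA.lean`) the number of the solutions.
`y² ≤ 3 m / c² ≤ 3 √X / c³ ≤ 9 √X`. -/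
def S_CA : Prop :=
  ∀ (r X : ℕ), (r = 5 ∨ r = 2) → ∀ (B : Finset ℕ), (∀ D ∈ B, D ≤ X ∧ D % 12 = r ∧
      ∃ j ≤ 1, ∃ m x y : ℕ, Tri2 r D j m x y ∧ (m : ℝ) ≤ 4 / Real.pi * √(D : ℝ)) →
    (B.card : ℝ) ≤ ∑ j ∈ Finset.range 2, ∑ m ∈ Finset.Icc 1 ⌊4 / Real.pi * √(X : ℝ)⌋₊,
      ∑ y ∈ Finset.Icc 1 ⌊3 * √√(X : ℝ)⌋₊,
        (k22 r j m y * k3 j m y * Wt j m y * Hh (3 ^ j * m ^ 3) (Real.pi / 4 * m) (√(X : ℝ)) y +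
          8 * Wt j m y)

/-- **[CB]** (assume WM, `SGP.S_AB`; `L7h75/SGP/CB.lean`) the weight may be replaced by its mean. -/
def S_CB : Prop :=
  ∃ C : ℝ, 0 < C ∧ ∀ r : ℕ, (r = 5 ∨ r = 2) → ∀ X : ℕ, 1 ≤ X →
    ∑ j ∈ Finset.range 2, ∑ m ∈ Finset.Icc 1 ⌊4 / Real.pi * √(X : ℝ)⌋₊,
      ∑ y ∈ Finset.Icc 1 ⌊3 * √√(X : ℝ)⌋₊,
        (k22 r j m y * k3 j m y * Wt j m y * Hh (3 ^ j * m ^ 3) (Real.pi / 4 * m) (√(X : ℝ)) y +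
          8 * Wt j m y) ≤
    ∑ j ∈ Finset.range 2, ∑ m ∈ Finset.Icc 1 ⌊4 / Real.pi * √(X : ℝ)⌋₊,
      ∑ y ∈ Finset.Icc 1 ⌊3 * √√(X : ℝ)⌋₊,
        Rm2 j y * Hh (3 ^ j * m ^ 3) (Real.pi / 4 * m) (√(X : ℝ)) y + C * (X : ℝ) ^ (7 / 8 : ℝ)

/-- **[CC]** (assume `SGP.S_YS`; `L7h75/SGP/CC.lean`) the main term: `∑_{a=1}^{36} (Rm2 0 a + Rm2 1 a) = 2`,
`∑_{m ≤ M} (√X - c m) ≤ X / (2 c) = 2 X / π`, and `2 (π/72) (2 X/π) = X / 18`. -/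
def S_CC : Prop :=
  ∃ C : ℝ, 0 < C ∧ ∀ X : ℕ, 1 ≤ X →
    ∑ j ∈ Finset.range 2, ∑ m ∈ Finset.Icc 1 ⌊4 / Real.pi * √(X : ℝ)⌋₊,
      ∑ y ∈ Finset.Icc 1 ⌊3 * √√(X : ℝ)⌋₊,
        Rm2 j y * Hh (3 ^ j * m ^ 3) (Real.pi / 4 * m) (√(X : ℝ)) y ≤
      (X : ℝ) / 18 + C * (X : ℝ) ^ (9 / 10 : ℝ)

/-- **[SQ]** squarefree numbers (`L7h75/SGP/SQ.lean`; for `D ≡ 2` modulo `12`, `4 ∤ D`) -/
def S_SQ : Prop :=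
  ∃ C : ℝ, 0 < C ∧ ∀ r : ℕ, (r = 5 ∨ r = 2) → ∀ X : ℕ, 75 / 1000 * (X : ℝ) - C * √(X : ℝ) ≤
    (((Finset.Icc 1 X).filter fun D => Squarefree D ∧ D % 12 = r).card : ℝ)

end Pool.Agent.L7h48.SGQ
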