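import Pool.Agent.L7h48.SGQ.Stm
import Pool.Agent.L7h75.SGP.CB

/-!
# Project SGQ, part CB: the weight may be replaced by its mean (copy of `L7h75/SGP/CB.lean` by helper75)
-/

set_option autoImplicit false

namespace Pool.Agent.L7h48.SGQ

open Finset Pool.Agent.L7h48.SGP
open Pool.Agent.L7h75.SGP.CBx (Wt_nonneg Wt_le sum_inv_sqrt mono_g mono_h top_le)

lemma Hh_two (A P Q y : ℝ) : Hh A P Q y = 1 / 2 * Hh (4 * A) (2 * P) (2 * Q) y := by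
  have h : ∀ t : ℝ, √(4 * t) = 2 * √t := by
    intro t
    rw [Real.sqrt_mul (by norm_num), show (4 : ℝ) = 2 ^ 2 by norm_num, Real.sqrt_sq (by norm_num)]
  unfold Hh
  have e1 : 4 * A - (2 * P) ^ 2 * y ^ 2 = 4 * (A - P ^ 2 * y ^ 2) := by ring
  have e2 : 4 * A - (2 * Q) ^ 2 * y ^ 2 = 4 * (A - Q ^ 2 * y ^ 2) := by ring
  rw [e1, e2, h, h]
  ring

/-- one `y`, any weight -/
lemma one_w (hAB : S_AB) (w : ℕ → ℝ) (E : ℝ) (j y M : ℕ) (hE : ∀ N ≤ M, |∑ m ∈ Icc 1 N, w m| ≤ E)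
    (hE0 : 0 ≤ E) (hj : j ≤ 1) (hy : 0 < y) (u Q : ℝ) (hu : 0 ≤ u) (hM : (M : ℝ) ≤ u ^ 4) :
    ∑ m ∈ Icc 1 M, w m * Hh (4 * (3 ^ j * (m : ℝ) ^ 3)) (Real.pi / 2 * m) Q y ≤
      16 * E * u ^ 6 / (y : ℝ) ^ 2 := by
  have hy0 : (0 : ℝ) < y := by exact_mod_cast hy
  set g : ℕ → ℝ := fun m => √(4 * (3 ^ j * (m : ℝ) ^ 3) - (Real.pi / 2 * (m : ℝ)) ^ 2 * (y : ℝ) ^ 2)
    with hg
  set h : ℕ → ℝ := fun m => √(4 * (3 ^ j * (m : ℝ) ^ 3) - Q ^ 2 * (y : ℝ) ^ 2) with hh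
  have h1 := hAB w g _ M hE (fun m => Real.sqrt_nonneg _) (mono_g j (Real.pi / 2) y)
  have h2 := hAB w h _ M hE (fun m => Real.sqrt_nonneg _) (mono_h j (Q ^ 2 * (y : ℝ) ^ 2))
  have h3 : g M ≤ 4 * u ^ 6 := top_le j M hj u _ hu hM (by positivity)
  have h4 : h M ≤ 4 * u ^ 6 := top_le j M hj u _ hu hM (by positivity)
  have hE0 : 0 ≤ 2 * E := by positivity
  have e : ∀ m ∈ Icc 1 M, w m * Hh (4 * (3 ^ j * (m : ℝ) ^ 3)) (Real.pi / 2 * m) Q y =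
      (w m * g m - w m * h m) / (y : ℝ) ^ 2 := by
    intro m _
    simp only [hg, hh, Hh]
    ring
  rw [sum_congr rfl e, ← sum_div, sum_sub_distrib]
  apply div_le_div_of_nonneg_right _ (by positivity)
  have a1 := (le_abs_self _).trans (h1.trans (mul_le_mul_of_nonneg_left h3 hE0))
  have a2 := (neg_le_abs _).trans (h2.trans (mul_le_mul_of_nonneg_left h4 hE0))
  nlinarith

/-- one `j`, one `y` -/
lemma one_y2 (hAB : S_AB) (C : ℝ) (hC : 0 < C) (r : ℕ)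
    (hWM : ∀ (j y N : ℕ), j ≤ 1 → 0 < y →
      |∑ m ∈ Finset.Icc 1 N, (k22 r j m y * k3 j m y * Wt j m y - Rm2 j y)| ≤ C * y * √(y : ℝ))
    (j y M : ℕ) (hj : j ≤ 1) (hy : 0 < y) (u Q : ℝ) (hu : 0 ≤ u) (hM : (M : ℝ) ≤ u ^ 4) :
    ∑ m ∈ Icc 1 M, (k22 r j m y * k3 j m y * Wt j m y - Rm2 j y) *
      Hh (3 ^ j * (m : ℝ) ^ 3) (Real.pi / 4 * m) Q y ≤ 8 * C * u ^ 6 * (1 / √(y : ℝ)) := by
  have hy0 : (0 : ℝ) < y := by exact_mod_cast hy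
  have h1 := one_w hAB (fun m => k22 r j m y * k3 j m y * Wt j m y - Rm2 j y) _ j y M
    (fun N _ => hWM j y N hj hy) (by positivity) hj hy u (2 * Q) hu hM
  have e : ∀ m ∈ Icc 1 M, (k22 r j m y * k3 j m y * Wt j m y - Rm2 j y) *
      Hh (3 ^ j * (m : ℝ) ^ 3) (Real.pi / 4 * m) Q y =
      1 / 2 * ((k22 r j m y * k3 j m y * Wt j m y - Rm2 j y) *
        Hh (4 * (3 ^ j * (m : ℝ) ^ 3)) (Real.pi / 2 * m) (2 * Q) y) := by
    intro m _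
    rw [Hh_two (3 ^ j * (m : ℝ) ^ 3), show 2 * (Real.pi / 4 * (m : ℝ)) = Real.pi / 2 * m by ring]
    ring
  rw [sum_congr rfl e, ← mul_sum]
  have hs : 0 < √(y : ℝ) := Real.sqrt_pos.2 hy0
  have key : ((y : ℝ) * √(y : ℝ)) / (y : ℝ) ^ 2 = 1 / √(y : ℝ) := by
    rw [div_eq_div_iff (by positivity) hs.ne', mul_assoc, Real.mul_self_sqrt hy0.le]
    ring
  have e2 : 16 * (C * y * √(y : ℝ)) * u ^ 6 / (y : ℝ) ^ 2 = 16 * C * u ^ 6 * (1 / √(y : ℝ)) := by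
    rw [← key]
    ring
  rw [e2] at h1
  linarith

lemma per_j2 (hAB : S_AB) (C : ℝ) (hC : 0 < C) (r : ℕ)
    (hWM : ∀ (j y N : ℕ), j ≤ 1 → 0 < y →
      |∑ m ∈ Finset.Icc 1 N, (k22 r j m y * k3 j m y * Wt j m y - Rm2 j y)| ≤ C * y * √(y : ℝ))
    (j M Y : ℕ) (hj : j ≤ 1) (u Q : ℝ) (hu : 0 ≤ u) (hM : (M : ℝ) ≤ u ^ 4)
    (hY : (Y : ℝ) ≤ 3 * u ^ 2) :
    ∑ m ∈ Icc 1 M, ∑ y ∈ Icc 1 Y,
      (k22 r j m y * k3 j m y * Wt j m y * Hh (3 ^ j * (m : ℝ) ^ 3) (Real.pi / 4 * m) Q y +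
        8 * Wt j m y) ≤
    ∑ m ∈ Icc 1 M, ∑ y ∈ Icc 1 Y, Rm2 j y * Hh (3 ^ j * (m : ℝ) ^ 3) (Real.pi / 4 * m) Q y +
      (32 * C + 48) * u ^ 7 := by
  have hsY : √(Y : ℝ) ≤ 2 * u := by
    apply Real.sqrt_le_iff.2
    refine ⟨by positivity, ?_⟩
    nlinarith [sq_nonneg u]
  have e1 : ∑ m ∈ Icc 1 M, ∑ y ∈ Icc 1 Y,
      (k22 r j m y * k3 j m y * Wt j m y * Hh (3 ^ j * (m : ℝ) ^ 3) (Real.pi / 4 * m) Q y +
        8 * Wt j m y) =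
      ∑ m ∈ Icc 1 M, ∑ y ∈ Icc 1 Y, Rm2 j y * Hh (3 ^ j * (m : ℝ) ^ 3) (Real.pi / 4 * m) Q y +
      ∑ m ∈ Icc 1 M, ∑ y ∈ Icc 1 Y, (k22 r j m y * k3 j m y * Wt j m y - Rm2 j y) *
        Hh (3 ^ j * (m : ℝ) ^ 3) (Real.pi / 4 * m) Q y +
      ∑ m ∈ Icc 1 M, ∑ y ∈ Icc 1 Y, 8 * Wt j m y := by
    rw [← sum_add_distrib, ← sum_add_distrib]
    apply sum_congr rfl
    intro m _
    rw [← sum_add_distrib, ← sum_add_distrib]
    apply sum_congr rfl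
    intro y _
    ring
  have e2 : ∑ m ∈ Icc 1 M, ∑ y ∈ Icc 1 Y, (k22 r j m y * k3 j m y * Wt j m y - Rm2 j y) *
        Hh (3 ^ j * (m : ℝ) ^ 3) (Real.pi / 4 * m) Q y ≤ 32 * C * u ^ 7 := by
    rw [sum_comm]
    calc ∑ y ∈ Icc 1 Y, ∑ m ∈ Icc 1 M, (k22 r j m y * k3 j m y * Wt j m y - Rm2 j y) *
        Hh (3 ^ j * (m : ℝ) ^ 3) (Real.pi / 4 * m) Q y
        ≤ ∑ y ∈ Icc 1 Y, 8 * C * u ^ 6 * (1 / √(y : ℝ)) := by
          apply sum_le_sum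
          intro y hy
          rw [mem_Icc] at hy
          exact one_y2 hAB C hC r hWM j y M hj (by omega) u Q hu hM
      _ = 8 * C * u ^ 6 * ∑ y ∈ Icc 1 Y, 1 / √(y : ℝ) := by rw [mul_sum]
      _ ≤ 8 * C * u ^ 6 * (2 * √(Y : ℝ)) :=
          mul_le_mul_of_nonneg_left (sum_inv_sqrt Y) (by positivity)
      _ ≤ 8 * C * u ^ 6 * (2 * (2 * u)) :=
          mul_le_mul_of_nonneg_left (by linarith) (by positivity)
      _ = 32 * C * u ^ 7 := by ring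
  have e3 : ∑ m ∈ Icc 1 M, ∑ y ∈ Icc 1 Y, 8 * Wt j m y ≤ 48 * u ^ 7 := by
    calc ∑ m ∈ Icc 1 M, ∑ y ∈ Icc 1 Y, 8 * Wt j m y
        ≤ ∑ m ∈ Icc 1 M, ∑ y ∈ Icc 1 Y, 8 * (2 * u) := by
          apply sum_le_sum
          intro m _
          apply sum_le_sum
          intro y hy
          rw [mem_Icc] at hy
          have h1 : √(y : ℝ) ≤ √(Y : ℝ) := Real.sqrt_le_sqrt (by exact_mod_cast hy.2)
          have h2 := Wt_le j m y (by omega)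
          linarith
      _ = (M : ℝ) * ((Y : ℝ) * (8 * (2 * u))) := by
          rw [sum_const, sum_const, Nat.card_Icc, Nat.card_Icc, nsmul_eq_mul, nsmul_eq_mul]
          simp
      _ ≤ u ^ 4 * (3 * u ^ 2 * (8 * (2 * u))) := by
          apply mul_le_mul hM _ (by positivity) (by positivity)
          exact mul_le_mul_of_nonneg_right hY (by positivity)
      _ = 48 * u ^ 7 := by ring
  rw [e1]
  linarith

theorem s_CB (hWM : S_WM) (hAB : S_AB) : S_CB := by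
  obtain ⟨C, hC, hWM⟩ := hWM
  refine ⟨256 * (64 * C + 96), by positivity, fun r hr X hX => ?_⟩
  have hX0 : (0 : ℝ) < X := by exact_mod_cast hX
  have hpi := Real.pi_pos
  -- `u⁸ = 4 X`
  set u : ℝ := (4 * X : ℝ) ^ (1 / 8 : ℝ) with hu
  have hu0 : 0 ≤ u := Real.rpow_nonneg (by positivity) _
  have hu8 : u ^ 8 = 4 * X := by
    rw [hu, ← Real.rpow_natCast, ← Real.rpow_mul (by positivity)]; norm_num
  have hu7 : u ^ 7 ≤ 4 * (X : ℝ) ^ (7 / 8 : ℝ) := by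
    rw [hu, ← Real.rpow_natCast, ← Real.rpow_mul (by positivity),
      Real.mul_rpow (by norm_num) hX0.le]
    have h1 : (4 : ℝ) ^ (1 / 8 * ((7 : ℕ) : ℝ)) ≤ 4 := by
      calc (4 : ℝ) ^ (1 / 8 * ((7 : ℕ) : ℝ)) ≤ 4 ^ (1 : ℝ) :=
            Real.rpow_le_rpow_of_exponent_le (by norm_num) (by norm_num)
        _ = 4 := Real.rpow_one 4
    have h2 : (X : ℝ) ^ (1 / 8 * ((7 : ℕ) : ℝ)) = (X : ℝ) ^ (7 / 8 : ℝ) := by norm_num
    rw [h2]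
    exact mul_le_mul_of_nonneg_right h1 (Real.rpow_nonneg hX0.le _)
  have hs1 : 2 * √(X : ℝ) = u ^ 4 := by
    have h1 : √(4 * (X : ℝ)) = u ^ 4 := by
      rw [← hu8, show u ^ 8 = (u ^ 4) ^ 2 by ring]
      exact Real.sqrt_sq (by positivity)
    rw [← h1, Real.sqrt_mul (by norm_num), show (4 : ℝ) = 2 ^ 2 by norm_num,
      Real.sqrt_sq (by norm_num)]
  have hs2 : √√(X : ℝ) ≤ u ^ 2 := by
    apply Real.sqrt_le_iff.2
    refine ⟨by positivity, ?_⟩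
    have h1 := Real.sqrt_nonneg (X : ℝ)
    have h2 : (u ^ 2) ^ 2 = u ^ 4 := by ring
    rw [h2, ← hs1]
    linarith
  set M : ℕ := ⌊4 / Real.pi * √(X : ℝ)⌋₊ with hM
  set Y : ℕ := ⌊3 * √√(X : ℝ)⌋₊ with hY
  have hMr : (M : ℝ) ≤ u ^ 4 := by
    have h0 : (M : ℝ) ≤ 4 / Real.pi * √(X : ℝ) := Nat.floor_le (by positivity)
    refine h0.trans ?_
    have h1 : 4 / Real.pi ≤ 2 := by
      rw [div_le_iff₀ hpi]; linarith [Real.two_le_pi]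
    calc 4 / Real.pi * √(X : ℝ) ≤ 2 * √(X : ℝ) :=
          mul_le_mul_of_nonneg_right h1 (Real.sqrt_nonneg _)
      _ = u ^ 4 := hs1
  have hYr : (Y : ℝ) ≤ 3 * u ^ 2 := by
    have h0 : (Y : ℝ) ≤ 3 * √√(X : ℝ) := Nat.floor_le (by positivity)
    linarith
  rw [sum_range_succ, sum_range_one, sum_range_succ, sum_range_one]
  have h0 := per_j2 hAB C hC r (fun j y N => hWM r j y N hr) 0 M Y (by norm_num) u (√(X : ℝ)) hu0
    hMr hYr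
  have h1 := per_j2 hAB C hC r (fun j y N => hWM r j y N hr) 1 M Y (by norm_num) u (√(X : ℝ)) hu0
    hMr hYr
  have h2 : (64 * C + 96) * u ^ 7 ≤ (64 * C + 96) * (4 * (X : ℝ) ^ (7 / 8 : ℝ)) :=
    mul_le_mul_of_nonneg_left hu7 (by positivity)
  have h3 : 0 ≤ (64 * C + 96) * (X : ℝ) ^ (7 / 8 : ℝ) := by positivity
  nlinarith

end Pool.Agent.L7h48.SGQ
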