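import Pool.Agent.L7h48.SGQ.FRM
import Pool.Agent.L7h48.SGP.TRI

/-!
# Project SGQ: a field which is not `Good` gives a solution of `x² + D y² = 3^j m³`
-/

set_option autoImplicit false
set_option linter.unusedSectionVars false

namespace Pool.Agent.L7h48.SGQ

open Pool.Agent.Y715.Gi (QB KK GK)
open Pool.Agent.Y715.Nr Pool.Agent.W237.RK
open Pool.Agent.Z384 (II DD DDs KK_ex fixK exists_conj)
open Pool.Agent.L7h48.SG
open Pool.Agent.L7h48.SGP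
open Pool.Agent.L7h15.SG (em pid)
open NumberField

/-- the conditions at `2` -/
lemma two_arith {r D j m : ℕ} {x y : ℤ} (hr : r = 5 ∨ r = 2) (hD : D % 12 = r)
    (heq : x ^ 2 + D * y ^ 2 = 3 ^ j * (m : ℤ) ^ 3) (h4 : m % 4 ≠ 0)
    (h2 : m % 2 = 0 → (2 : ℤ) ∣ x ∧ (2 : ℤ) ∣ y) :
    (r = 5 ∧ m % 2 = 1 ∧ (x.natAbs + y.natAbs) % 2 = 1) ∨
    (r = 5 ∧ m % 4 = 2 ∧ x.natAbs % 4 = 2 ∧ y.natAbs % 4 = 2) ∨
    (r = 2 ∧ m % 2 = 1 ∧ x.natAbs % 2 = 1) ∨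
    (r = 2 ∧ m % 4 = 2 ∧ x.natAbs % 4 = 0 ∧ y.natAbs % 4 = 2) := by
  rcases Nat.even_or_odd' m with ⟨k, hk | hk⟩
  · -- `m` even
    obtain ⟨⟨x', hx'⟩, ⟨y', hy'⟩⟩ := h2 (by omega)
    have hk1 : k % 2 = 1 := by omega
    obtain ⟨k', hk'⟩ : ∃ k' : ℤ, (k : ℤ) = 2 * k' + 1 := ⟨(k : ℤ) / 2, by omega⟩
    have e1 : x' ^ 2 + D * y' ^ 2 = 2 * (3 ^ j * (k : ℤ) ^ 3) := by
      have : (m : ℤ) = 2 * k := by exact_mod_cast hk
      rw [this, hx', hy'] at heq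
      nlinarith
    -- the right side is `2` modulo `4`
    obtain ⟨a, ha⟩ : ∃ a : ℤ, (3 : ℤ) ^ j * (k : ℤ) ^ 3 = 2 * a + 1 := by
      have h5 : Odd ((3 : ℤ) ^ j * (k : ℤ) ^ 3) :=
        (Odd.pow (by decide)).mul (Odd.pow ⟨k', hk'⟩)
      obtain ⟨a, ha⟩ := h5
      exact ⟨a, ha⟩
    rw [ha] at e1
    rcases Int.even_or_odd' x' with ⟨u, hu | hu⟩ <;> rcases Int.even_or_odd' y' with ⟨w, hw | hw⟩
    · exfalso
      have e2 : 4 * (u ^ 2 + D * w ^ 2) = 2 * (2 * a + 1) := by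
        rw [← e1, hu, hw]; ring
      omega
    · -- `x'` even, `y'` odd
      have e2 : 4 * (u ^ 2 + D * (w ^ 2 + w)) + D = 2 * (2 * a + 1) := by
        rw [← e1, hu, hw]; ring
      have hr2 : r = 2 := by
        rcases hr with h | h
        · exfalso
          generalize u ^ 2 + (D : ℤ) * (w ^ 2 + w) = z at e2
          omega
        · exact h
      right; right; right
      refine ⟨hr2, by omega, ?_, ?_⟩ <;> omega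
    · exfalso
      have e2 : 4 * (u ^ 2 + u + D * w ^ 2) + 1 = 2 * (2 * a + 1) := by
        rw [← e1, hu, hw]; ring
      generalize u ^ 2 + u + (D : ℤ) * w ^ 2 = z at e2
      omega
    · -- both odd
      have e2 : 4 * (u ^ 2 + u + D * (w ^ 2 + w)) + (1 + D) = 2 * (2 * a + 1) := by
        rw [← e1, hu, hw]; ring
      have hr5 : r = 5 := by
        rcases hr with h | h
        · exact h
        · exfalso
          generalize u ^ 2 + u + (D : ℤ) * (w ^ 2 + w) = z at e2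
          omega
      right; left
      refine ⟨hr5, by omega, ?_, ?_⟩ <;> omega
  · -- `m` odd
    obtain ⟨a, ha⟩ : ∃ a : ℤ, (3 : ℤ) ^ j * (m : ℤ) ^ 3 = 2 * a + 1 := by
      have h5 : Odd ((3 : ℤ) ^ j * (m : ℤ) ^ 3) :=
        (Odd.pow (by decide)).mul (Odd.pow ⟨(k : ℤ), by exact_mod_cast hk⟩)
      obtain ⟨a, ha⟩ := h5
      exact ⟨a, ha⟩
    rw [ha] at heq
    rcases hr with h | h
    · left
      refine ⟨h, by omega, ?_⟩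
      obtain ⟨d, hd⟩ : ∃ d : ℤ, (D : ℤ) = 2 * d + 1 := ⟨(D : ℤ) / 2, by omega⟩
      rcases Int.even_or_odd' x with ⟨u, hu | hu⟩ <;> rcases Int.even_or_odd' y with ⟨w, hw | hw⟩
      · exfalso
        have e2 : 2 * (2 * u ^ 2 + 2 * D * w ^ 2) = 2 * a + 1 := by
          rw [← heq, hu, hw]; ring
        omega
      · omega
      · omega
      · exfalso
        have e2 : 2 * (2 * u ^ 2 + 2 * u + 1 + (2 * D * (w ^ 2 + w)) + d) = 2 * a + 1 := by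
          rw [← heq, hu, hw, hd]; ring
        omega
    · right; right; left
      refine ⟨h, by omega, ?_⟩
      obtain ⟨d, hd⟩ : ∃ d : ℤ, (D : ℤ) = 2 * d := ⟨(D : ℤ) / 2, by omega⟩
      rcases Int.even_or_odd' x with ⟨u, hu | hu⟩
      · exfalso
        have e2 : 2 * (2 * u ^ 2 + d * y ^ 2) = 2 * a + 1 := by
          rw [← heq, hu, hd]; ring
        omega
      · omega

/-- the final arithmetic -/
lemma tri_arith {r D j m : ℕ} {x y : ℤ} (hm0 : 0 < m) (hy0 : y ≠ 0)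
    (htwo : (r = 5 ∧ m % 2 = 1 ∧ (x.natAbs + y.natAbs) % 2 = 1) ∨
    (r = 5 ∧ m % 4 = 2 ∧ x.natAbs % 4 = 2 ∧ y.natAbs % 4 = 2) ∨
    (r = 2 ∧ m % 2 = 1 ∧ x.natAbs % 2 = 1) ∨
    (r = 2 ∧ m % 4 = 2 ∧ x.natAbs % 4 = 0 ∧ y.natAbs % 4 = 2))
    (heq : x ^ 2 + D * y ^ 2 = 3 ^ j * (m : ℤ) ^ 3)
    (hq : ∀ q : ℕ, q.Prime → 5 ≤ q → (q : ℤ) ∣ y → q ∣ m → ¬ (q : ℤ) ^ 2 ∣ y ∧ (q : ℤ) ^ 2 ∣ x)
    (key : (j = 0 ∧ m % 3 = 1 ∧ (9 : ℤ) ∣ 2 * y) ∨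
    (j = 0 ∧ m % 3 = 2 ∧ (9 : ℤ) ∣ 2 * x ∧ ¬ (3 : ℤ) ∣ 2 * y) ∨
    (j = 0 ∧ m % 3 = 0 ∧ ((9 : ℤ) ∣ 2 * x - 1 ∨ (9 : ℤ) ∣ 2 * x + 1) ∧ ¬ (3 : ℤ) ∣ 2 * y) ∨
    (j = 1 ∧ m % 3 = 1 ∧ ((9 : ℤ) ∣ 2 * x - 4 ∨ (9 : ℤ) ∣ 2 * x + 4) ∧ ¬ (3 : ℤ) ∣ 2 * y) ∨
    (j = 1 ∧ m % 3 = 2 ∧ ((9 : ℤ) ∣ 2 * x - 2 ∨ (9 : ℤ) ∣ 2 * x + 2) ∧ ¬ (3 : ℤ) ∣ 2 * y) ∨
    (j = 1 ∧ m % 3 = 0 ∧ ((9 : ℤ) ∣ 2 * x - 1 ∨ (9 : ℤ) ∣ 2 * x + 1) ∧ ¬ (3 : ℤ) ∣ 2 * y) ∨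
    (j = 1 ∧ m % 3 = 0 ∧ ((27 : ℤ) ∣ 2 * x - 3 ∨ (27 : ℤ) ∣ 2 * x + 3) ∧ (3 : ℤ) ∣ 2 * y ∧
      ¬ (9 : ℤ) ∣ 2 * y)) :
    Tri2 r D j m x.natAbs y.natAbs := by
  have hX : ((x.natAbs : ℕ) : ℤ) ^ 2 = x ^ 2 := Int.natAbs_sq x
  have hY : ((y.natAbs : ℕ) : ℤ) ^ 2 = y ^ 2 := Int.natAbs_sq y
  refine ⟨?_, hm0, Int.natAbs_pos.2 hy0, htwo, ?_, ?_⟩
  · have h6 : (((x.natAbs ^ 2 + D * y.natAbs ^ 2 : ℕ) : ℤ)) = ((3 ^ j * m ^ 3 : ℕ) : ℤ) := by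
      rw [Nat.cast_add, Nat.cast_mul, Nat.cast_pow, Nat.cast_pow, hX, hY, heq]
      push_cast
      rfl
    exact_mod_cast h6
  · clear heq hq hX hY htwo
    rcases key with ⟨h1, h4, h5⟩ | ⟨h1, h4, h5, h6⟩ | ⟨h1, h4, h5, h6⟩ | ⟨h1, h4, h5, h6⟩ |
      ⟨h1, h4, h5, h6⟩ | ⟨h1, h4, h5, h6⟩ | ⟨h1, h4, h5, h6, h7⟩
    · left; omega
    · right; left; omega
    · right; right; left; omega
    · right; right; right; left; omega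
    · right; right; right; right; left; omega
    · right; right; right; right; right; left; omega
    · right; right; right; right; right; right; omega
  · intro q hqp hq5 hqy hqm
    have h4 := hq q hqp hq5 (Int.natCast_dvd.2 hqy) hqm
    refine ⟨fun h5 => h4.1 ?_, ?_⟩
    · have := Int.natCast_dvd.2 h5
      push_cast at this
      exact this
    · have : ((q ^ 2 : ℕ) : ℤ) ∣ x := by push_cast; exact h4.2
      exact Int.natCast_dvd.1 this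

/-- **TRI** -/
theorem s_TRI (hID : S_ID) (hR0 : S_R0) (hR2 : S_R2) (hR3 : Pool.Agent.L7h48.SGP.S_R3) (hRQ : S_RQ) :
    S_TRI := by
  intro r hr D hsq hD s hs ι₀ hG
  have hD' : D % 12 = 5 ∨ D % 12 = 2 := by omega
  have hD3 : D % 3 = 2 := by omega
  obtain ⟨g, hg⟩ := exists_conj hs (by omega : D ≠ 0)
  obtain ⟨ι₁, hι₁⟩ : ∃ ι₁ : QB →ₐ[ℚ] PadicAlgCl 3, ι₁ s = -ι₀ s :=
    ⟨ι₀.comp (g : QB →ₐ[ℚ] QB), by
      show ι₀ (g s) = _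
      rw [hg, map_neg]⟩
  obtain ⟨I, b, j, hdta, hnorm⟩ := hID D hsq hD3 s hs ι₀ ι₁ hι₁ hG
  obtain ⟨x, y, hb, hy0, heq⟩ := hR0 D hsq hD' s hs ι₀ ι₁ hι₁ I b j hdta
  obtain ⟨h4, h2, h3⟩ := hR2 D hsq hD' s hs ι₀ ι₁ hι₁ I b j hdta
  have hq := hRQ D hsq hD' s hs ι₀ ι₁ hι₁ I b j hdta x y hb hy0 heq
  -- the local root
  obtain ⟨r', hr'⟩ := exists_root hD3
  obtain ⟨t, ht, hts⟩ : ∃ t : ℚ_[3], t ^ 2 = -(D : ℚ_[3]) ∧
      ι₀ s = algebraMap ℚ_[3] (PadicAlgCl 3) t := by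
    have h1 : (ι₀ s) ^ 2 = (algebraMap ℚ_[3] (PadicAlgCl 3) r') ^ 2 := by
      rw [← map_pow, hs, ← map_pow, hr', map_neg, map_neg, map_natCast, map_natCast]
    rcases sq_eq_sq_iff_eq_or_eq_neg.1 h1 with h2 | h2
    · exact ⟨r', hr', h2⟩
    · exact ⟨-r', by rw [neg_sq, hr'], by rw [h2, map_neg]⟩
  obtain ⟨v, hv⟩ := hdta.cube
  have hj := hdta.j1
  have hI0 := hdta.I0
  clear hdta hG hID hR0 hR2 hRQ
  have heven : Ideal.absNorm I % 2 = 0 → (2 : ℤ) ∣ x ∧ (2 : ℤ) ∣ y := by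
    intro h5
    obtain ⟨b', hb'⟩ := h2 h5
    obtain ⟨x', y', hxy'⟩ := form2 hsq hD' hs b'
    have e1 : (x : QB) + (y : QB) * s = ((2 * x' : ℤ) : QB) + ((2 * y' : ℤ) : QB) * s := by
      rw [← hb, hb', map_mul, map_ofNat, hxy']
      push_cast
      ring
    have hy1 : y = 2 * y' := by
      by_contra hne
      have h6 : ((y - 2 * y' : ℤ) : QB) ≠ 0 := by exact_mod_cast sub_ne_zero.2 hne
      have h7 : s = ((2 * x' - x : ℤ) : QB) / ((y - 2 * y' : ℤ) : QB) := by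
        rw [eq_div_iff h6]
        push_cast
        push_cast at e1
        linear_combination e1
      have h8 : s ^ 2 = ((((2 * x' - x : ℤ) : ℚ) / ((y - 2 * y' : ℤ) : ℚ)) ^ 2 : ℚ) := by
        rw [h7]
        push_cast
        rfl
      rw [hs] at h8
      have h9 : (-(D : ℚ)) = (((2 * x' - x : ℤ) : ℚ) / ((y - 2 * y' : ℤ) : ℚ)) ^ 2 := by
        exact_mod_cast h8
      have h10 : (0 : ℚ) < D := by
        have : 0 < D := by omega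
        exact_mod_cast this
      nlinarith [sq_nonneg (((2 * x' - x : ℤ) : ℚ) / ((y - 2 * y' : ℤ) : ℚ))]
    have hx1 : x = 2 * x' := by
      have e2 : (x : QB) = ((2 * x' : ℤ) : QB) := by
        rw [hy1] at e1
        linear_combination e1
      exact_mod_cast e2
    exact ⟨⟨x', hx1⟩, ⟨y', hy1⟩⟩
  generalize hm : Ideal.absNorm I = m at *
  have hm0 : 0 < m := by
    rw [Nat.pos_iff_ne_zero, ← hm, Ne, Ideal.absNorm_eq_zero_iff]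
    exact hI0
  have e0 : ι₀ (em s b) = algebraMap ℚ_[3] (PadicAlgCl 3)
      ((((2 * x : ℤ) : ℚ_[3]) + ((2 * y : ℤ) : ℚ_[3]) * t) / 2) := by
    rw [hb]
    simp only [map_div₀, map_add, map_mul, map_intCast, map_ofNat, hts]
    push_cast
    ring
  have e1 : ι₁ (em s b) = algebraMap ℚ_[3] (PadicAlgCl 3)
      ((((2 * x : ℤ) : ℚ_[3]) - ((2 * y : ℤ) : ℚ_[3]) * t) / 2) := by
    rw [hb]
    simp only [map_div₀, map_add, map_sub, map_mul, map_intCast, map_ofNat, hι₁, hts]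
    push_cast
    ring
  have hv' : v ^ 3 = (((2 * x : ℤ) : ℚ_[3]) + ((2 * y : ℤ) : ℚ_[3]) * t) / 2 := by
    apply (algebraMap ℚ_[3] (PadicAlgCl 3)).injective
    rw [map_pow, hv, e0]
  have hn0 : ‖ι₀ (em s b)‖ = ‖(((2 * x : ℤ) : ℚ_[3]) + ((2 * y : ℤ) : ℚ_[3]) * t) / 2‖ := by
    rw [e0]
    exact PadicAlgCl.norm_extends 3 _
  have hn1 : ‖ι₁ (em s b)‖ = ‖(((2 * x : ℤ) : ℚ_[3]) - ((2 * y : ℤ) : ℚ_[3]) * t) / 2‖ := by
    rw [e1]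
    exact PadicAlgCl.norm_extends 3 _
  rw [hn0, hn1] at h3
  have heq2 : (2 * x) ^ 2 + (D : ℤ) * (2 * y) ^ 2 = 4 * (3 ^ j * (m : ℤ) ^ 3) := by
    rw [← heq]; ring
  have key := hR3 D j m (2 * x) (2 * y) t v hj hm0 hD3 ht heq2 hv' h3
  exact ⟨j, hj, m, x.natAbs, y.natAbs,
    tri_arith hm0 hy0 (two_arith hr hD heq h4 heven) heq hq key, hnorm⟩

end Pool.Agent.L7h48.SGQ
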