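import Pool.Agent.L7h48.SGP.ALL
import Pool.Agent.L7h48.SGQ.TRI
import Pool.Agent.L7h48.SGQ.CB
import Pool.Agent.L7h48.SGQ.CC
import Pool.Agent.L7h48.SGQ.FIN
import Pool.Agent.L7h69.SGQ.RQ
import Pool.Agent.L7h23.SGQ.Cq
import Pool.Agent.L7h73.SGQ.Id
import Pool.Agent.L7h73.SGQ.R0
import Pool.Agent.L7h73.SGQ.R2
import Pool.Agent.L7h37.SGQ.MK
import Pool.Agent.L7h23.SGQ.Wm
import Pool.Agent.L7h23.SGQ.Ca
import Pool.Agent.L7h23.SGQ.Sq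

/-!
# Project SGQ: the parts together
-/

set_option autoImplicit false

namespace Pool.Agent.L7h48.SGQ

open Pool.Agent.Y715.Gi (QB KK GK)
open Pool.Agent.L7h48.SG (Lev Mu)
open Pool.Agent.L7h48.SGP (Good)

theorem f_TRI : S_TRI :=
  s_TRI (Pool.Agent.L7h73.SGQ.s_ID Pool.Agent.L7h37.SGQ.s_MK) Pool.Agent.L7h73.SGQ.s_R0
    Pool.Agent.L7h73.SGQ.s_R2 Pool.Agent.L7h37.SGP.s_R3 Pool.Agent.L7h69.SGQ.s_RQ

theorem f_XC : S_XC :=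
  Pool.Agent.L7h23.SGQ.s_XC Pool.Agent.L7h23.SGP.s_CV Pool.Agent.L7h23.SGQ.s_CQ
    Pool.Agent.L7h23.SGQ.s_C2 Pool.Agent.L7h23.SGQ.s_C3

theorem f_CA : S_CA := Pool.Agent.L7h23.SGQ.CAx.s_CA f_XC

theorem f_CB : S_CB := s_CB Pool.Agent.L7h23.SGQ.Wm.s_WM Pool.Agent.L7h51.SGP.s_AB

theorem f_CC : S_CC := s_CC Pool.Agent.L7h53.SGP.s_YS

theorem f_SQ : S_SQ := Pool.Agent.L7h23.SGQ.SQx.s_SQ

/-- `G_{K(μ_3)}` is a level for every `K = ℚ(√-D)` -/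
def GD (D : ℕ) : Prop :=
  ∀ s : QB, s ^ 2 = -(D : QB) → ∀ ι₀ : QB →ₐ[ℚ] PadicAlgCl 3, Lev 3 (Mu 3 s) ι₀

lemma not_GD {D : ℕ} (hD : D % 3 = 2) (h : ¬ GD D) :
    ∃ s : QB, s ^ 2 = -(D : QB) ∧ ∃ ι₀ : QB →ₐ[ℚ] PadicAlgCl 3, ¬ Good s ι₀ := by
  by_contra hcon
  push Not at hcon
  apply h
  intro s hs ι₀
  exact Pool.Agent.L7h48.SGP.f_GL s D (Pool.Agent.L7h48.SGP.spl_of hD hs) (hcon s hs) ι₀

open Classical in
/-- one quarter -/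
theorem quarter_all (r : ℕ) (hr : r = 2 ∨ r = 5 ∨ r = 11) :
    ∃ X₀ : ℕ, ∀ X ≥ X₀, ((Finset.Icc 1 X).filter fun D => Squarefree D ∧ D % 12 = r).card ≤
      4 * ((Finset.Icc 1 X).filter fun D => Squarefree D ∧ D % 12 = r ∧ GD D).card := by
  by_cases h11 : r = 11
  · subst h11
    refine Pool.Agent.L7h48.SGP.quarter Pool.Agent.L7h48.SGP.f_CA Pool.Agent.L7h48.SGP.f_CB
      Pool.Agent.L7h48.SGP.f_CC Pool.Agent.L7h48.SGP.f_SQ GD (fun D hsq hD hG => ?_)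
    obtain ⟨s, hs, ι₀, h⟩ := not_GD (by omega) hG
    exact Pool.Agent.L7h48.SGP.f_TRI D hsq hD s hs ι₀ h
  · have hr' : r = 5 ∨ r = 2 := by omega
    refine quarter f_CA f_CB f_CC f_SQ r hr' GD (fun D hsq hD hG => ?_)
    obtain ⟨s, hs, ι₀, h⟩ := not_GD (by omega) hG
    exact f_TRI r hr' D hsq hD s hs ι₀ h

end Pool.Agent.L7h48.SGQ
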