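import Pool.Agent.L7h48.SGQ.Stm
import Pool.Agent.L7h73.SGP.Base

/-!
# Project SGQ: the integers of `ℚ(√-D)`, `D ≡ 1, 2` modulo `4`
-/

set_option autoImplicit false
set_option linter.unusedSectionVars false

namespace Pool.Agent.L7h48.SGQ

open Pool.Agent.Y715.Gi (QB KK GK)
open Pool.Agent.L7h48.SG
open Pool.Agent.L7h48.SGP
open Pool.Agent.L7h15.SG (em pid mem_pid em_int em_mem em_surj integral_map)
open Pool.Agent.L7h73.SGP (rat_int sq_int)
open NumberField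

lemma par4 {D : ℕ} (hD : D % 12 = 5 ∨ D % 12 = 2) {x y N : ℤ} (h : x ^ 2 + D * y ^ 2 = 4 * N) :
    (2 : ℤ) ∣ x ∧ (2 : ℤ) ∣ y := by
  have key1 : ∀ a b : ZMod 4, a ^ 2 + 1 * b ^ 2 = 0 → 2 * a = 0 ∧ 2 * b = 0 := by decide
  have key2 : ∀ a b : ZMod 4, a ^ 2 + 2 * b ^ 2 = 0 → 2 * a = 0 ∧ 2 * b = 0 := by decide
  have h1 := congrArg (Int.cast : ℤ → ZMod 4) h
  push_cast at h1
  have h40 : (4 : ZMod 4) = 0 := by decide
  rw [h40, zero_mul] at h1
  have hfin : (2 * (x : ZMod 4) = 0 ∧ 2 * (y : ZMod 4) = 0) → (2 : ℤ) ∣ x ∧ (2 : ℤ) ∣ y := by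
    rintro ⟨h3, h4⟩
    have h5 : (((2 * x : ℤ)) : ZMod 4) = 0 := by push_cast; exact h3
    have h6 : (((2 * y : ℤ)) : ZMod 4) = 0 := by push_cast; exact h4
    rw [ZMod.intCast_zmod_eq_zero_iff_dvd] at h5 h6
    constructor
    · have : (4 : ℤ) ∣ 2 * x := by exact_mod_cast h5
      omega
    · have : (4 : ℤ) ∣ 2 * y := by exact_mod_cast h6
      omega
  apply hfin
  have hD4 : D % 4 = 1 ∨ D % 4 = 2 := by omega
  rcases hD4 with h2 | h2
  · have h3 : ((D : ℕ) : ZMod 4) = ((1 : ℕ) : ZMod 4) := by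
      rw [ZMod.natCast_eq_natCast_iff']
      exact h2
    rw [h3] at h1
    exact key1 _ _ (by simpa using h1)
  · have h3 : ((D : ℕ) : ZMod 4) = ((2 : ℕ) : ZMod 4) := by
      rw [ZMod.natCast_eq_natCast_iff']
      exact h2
    rw [h3] at h1
    exact key2 _ _ (by simpa using h1)

/-- the integers of `ℚ(√-D)` -/
theorem form2 {D : ℕ} (hsf : Squarefree D) (hD : D % 12 = 5 ∨ D % 12 = 2) {s : QB}
    (hs : s ^ 2 = -(D : QB)) (b : 𝓞 (KK s)) : ∃ x y : ℤ, em s b = (x : QB) + (y : QB) * s := by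
  obtain ⟨c, hc⟩ := Pool.Agent.Z384.exists_conj hs (by omega : D ≠ 0)
  obtain ⟨u, v, huv⟩ := Pool.Agent.Z384.KK_ex hs (em_mem b)
  have hi := em_int b
  have hci : IsIntegral ℤ (c (em s b)) := integral_map c hi
  have h1 : c (em s b) = u - v * s := by
    rw [huv, map_add, map_mul, map_ratCast, map_ratCast, hc]
    ring
  have h2 : em s b + c (em s b) = ((2 * u : ℚ) : QB) := by
    rw [h1, huv]
    push_cast
    ring
  have h3 : em s b * c (em s b) = ((u ^ 2 + D * v ^ 2 : ℚ) : QB) := by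
    rw [h1, huv]
    push_cast
    linear_combination -(v : QB) ^ 2 * hs
  obtain ⟨x, hx⟩ := rat_int (h2 ▸ hi.add hci)
  obtain ⟨N, hN⟩ := rat_int (h3 ▸ hi.mul hci)
  obtain ⟨y, hy⟩ := sq_int (w := 2 * v) (M := 4 * N - x ^ 2) hsf (by
    push_cast
    rw [hx, hN]
    ring)
  have h4 : x ^ 2 + D * y ^ 2 = 4 * N := by
    have : ((x ^ 2 + D * y ^ 2 : ℤ) : ℚ) = ((4 * N : ℤ) : ℚ) := by
      push_cast
      rw [hx, hy, hN]
      ring
    exact_mod_cast this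
  obtain ⟨⟨x', hx'⟩, ⟨y', hy'⟩⟩ := par4 hD h4
  refine ⟨x', y', ?_⟩
  have hu : u = x' := by
    have : (2 * u : ℚ) = 2 * x' := by rw [← hx, hx']; push_cast; ring
    linarith
  have hv : v = y' := by
    have : (2 * v : ℚ) = 2 * y' := by rw [← hy, hy']; push_cast; ring
    linarith
  rw [huv, hu, hv]
  push_cast
  ring

end Pool.Agent.L7h48.SGQ
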